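import Mathlib
import Pool.Agent.E8helper42.AZ.Pre3
import Pool.Agent.E8helper71.AZ.Fge
import Pool.Agent.E8helper41.AZ.Beu2

/-!
# `e`, `ζ(3)` and the exponential versions of Beukers's triple integral

Beukers's integrals for Apery's linear forms are
`1/2 ∫ f^n / (1 - (1 - x y) z) dx dy dz = a_n ζ(3) - b_n` (integral over the unit cube),
`f = x y z (1 - x) (1 - y) (1 - z) / (1 - (1 - x y) z)`. Let
`I_j(t) = 1/2 ∫ f^j exp (t f) / (1 - (1 - x y) z) dx dy dz`, so `I_0(0) = ζ(3)` and `I_j` is the `j`-th derivative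
of `I_0`. Then `I_j(t) = ζ(3) A_j(t) - B_j(t)` with `A_j(t) = ∑ a_{n+j} t^n / n!`, `B_j(t) = ∑ b_{n+j} t^n / n!`.

The number `e` and all the numbers `A_j(t)`, `B_j(t)` (`j < 4`, `t` positive rational) are algebraically independent.
Hence at most one of the numbers `ζ(3)`, `I_j(t)` (`j < 4`, `t` positive rational) is algebraic over `ℚ(e)`, and if
`ζ(3)` is algebraic over `ℚ(e)`, then `e` and all the `I_j(t)` are algebraically independent.
-/

set_option autoImplicit false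

namespace Pool.Agent.Results.MP_48b3e2_nt.ExponentialAperyIntegralsEH42

open Pool.Agent.E8helper42.AZ

/-- `ζ(3)` -/
noncomputable def zeta3 : ℝ := ∑' m : ℕ, 1 / ((m : ℝ) + 1) ^ 3

/-- the function whose powers occur in Beukers's triple integrals -/
noncomputable def f (x y z : ℝ) : ℝ := x * y * z * (1 - x) * (1 - y) * (1 - z) / (1 - (1 - x * y) * z)

/-- the open unit cube -/
def cube : Set (ℝ × ℝ × ℝ) := Set.Ioo 0 1 ×ˢ Set.Ioo 0 1 ×ˢ Set.Ioo 0 1

/-- `I_j(t) = 1/2 ∫ f^j exp (t f) / (1 - (1 - x y) z) dx dy dz`, the integral being over the unit cube -/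
noncomputable def I (j : ℕ) (t : ℝ) : ℝ :=
  1 / 2 * ∫ p in cube, f p.1 p.2.1 p.2.2 ^ j * Real.exp (t * f p.1 p.2.1 p.2.2) / (1 - (1 - p.1 * p.2.1) * p.2.2)

/-- the pairs `(j, t)` with `j < 4` and `t` a positive rational number -/
abbrev Pairs := {p : ℕ × ℚ // p.1 < 4 ∧ 0 < p.2}

/-- the number `I_j(t)` for a pair `(j, t)` -/
noncomputable def J (p : Pairs) : ℝ := I p.1.1 p.1.2

/-- `∑ c_{n+j} t^n / n!` -/
noncomputable def expSum (c : ℕ → ℚ) (j : ℕ) (t : ℚ) : ℝ := ∑' n : ℕ, (c (n + j) : ℝ) * (t : ℝ) ^ n / (n.factorial : ℝ)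

/-- Apery's recurrence -/
def AperyRec (c : ℕ → ℚ) : Prop := ∀ n : ℕ, ((n : ℚ) + 2) ^ 3 * c (n + 2) -
  (34 * ((n : ℚ) + 1) ^ 3 + 51 * ((n : ℚ) + 1) ^ 2 + 27 * ((n : ℚ) + 1) + 5) * c (n + 1) + ((n : ℚ) + 1) ^ 3 * c n = 0

/-- `x` is algebraic over the field generated by the set `G` -/
def AlgebraicOver (G : Set ℝ) (x : ℝ) : Prop := IsAlgebraic (IntermediateField.adjoin ℚ G) x

/-- Euler's number -/
noncomputable abbrev e : ℝ := Real.exp 1

theorem I_eq (j : ℕ) (t : ℝ) : I j t = ∑' n : ℕ, Jn (n + j) * t ^ n / (n.factorial : ℝ) := by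
  have h := E8helper41.AZ.beu2 j t
  have h2 : I j t = 1 / 2 * ∫ p : ℝ × ℝ × ℝ in Set.Ioo 0 1 ×ˢ Set.Ioo 0 1 ×ˢ Set.Ioo 0 1,
    beu p.1 p.2.1 p.2.2 ^ j * Real.exp (t * beu p.1 p.2.1 p.2.2) / (1 - (1 - p.1 * p.2.1) * p.2.2) := rfl
  rw [h2, h]
  ring

theorem result :
    -- Apery's numbers, their linear forms, and the algebraic independence of `e` and the `A_j(t)`, `B_j(t)`
    (∃ a b : ℕ → ℚ, (a 0 = 1 ∧ a 1 = 5 ∧ AperyRec a) ∧ (b 0 = 0 ∧ b 1 = 6 ∧ AperyRec b) ∧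
      (∀ n : ℕ, I n 0 = a n * zeta3 - b n) ∧
      (∀ (j : ℕ) (t : ℚ), I j t = zeta3 * expSum a j t - expSum b j t) ∧
      AlgebraicIndependent ℚ (fun o : Option (Pairs ⊕ Pairs) => o.elim e
        (Sum.elim (fun p : Pairs => expSum a p.1.1 p.1.2) (fun p : Pairs => expSum b p.1.1 p.1.2)))) ∧
    I 0 0 = zeta3 ∧
    -- at most one of the numbers `ζ(3)`, `I_j(t)` is algebraic over `ℚ(e)`
    (∀ o o' : Option Pairs, AlgebraicOver {e} (o.elim zeta3 J) → AlgebraicOver {e} (o'.elim zeta3 J) → o = o') ∧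
    -- if `ζ(3)` is algebraic over `ℚ(e)`, then `e` and the numbers `I_j(t)` are algebraically independent
    (AlgebraicOver {e} zeta3 → AlgebraicIndependent ℚ (fun o : Option Pairs => o.elim e J)) ∧
    -- the transcendence degree of a field `ℚ(e, G)` over which `ζ(3)` is algebraic
    (∀ G : Set ℝ, AlgebraicOver ({e} ∪ G) zeta3 → ∀ S : Finset Pairs, ((S.card + 1 : ℕ) : Cardinal) ≤
      Algebra.trdeg ℚ (IntermediateField.adjoin ℚ ({e} ∪ G ∪ J '' (S : Set Pairs)))) ∧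
    -- if `ζ(3)` is algebraic over `ℚ(e, w_1, …, w_r)`, at most `r` of the numbers `w_i`, `I_j(t)` are algebraic over
    -- `ℚ(e)`
    (∀ (r : ℕ) (w : Fin r → ℝ), AlgebraicOver ({e} ∪ Set.range w) zeta3 →
      {i : Fin r ⊕ Pairs | AlgebraicOver {e} (i.elim w J)}.encard ≤ (r : ℕ∞)) := by
  obtain ⟨a, b, a', b', hab, hab', hJ, hJ', hI, hI', hind0⟩ := all_indep
  have hind : AlgebraicIndependent ℚ (fun o : Option (Pairs ⊕ Pairs) => o.elim e
        (Sum.elim (fun p : Pairs => expSum a p.1.1 p.1.2) (fun p : Pairs => expSum b p.1.1 p.1.2))) := by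
    have h := hind0.comp (Option.map (Sum.inl : Prs 4 ⊕ Prs 4 → (Prs 4 ⊕ Prs 4) ⊕ (Prs 3 ⊕ Prs 3)))
      (Option.map_injective Sum.inl_injective)
    convert h using 1
    funext o
    rcases o with _ | (p | p) <;> rfl
  have hlin : ∀ (j : ℕ) (t : ℚ), I j t = zeta3 * expSum a j t - expSum b j t := by
    intro j t
    rw [I_eq]
    exact hI j t
  have hlin0 : ∀ n : ℕ, I n 0 = a n * zeta3 - b n := by
    intro n
    rw [I_eq, tsum_eq_single 0]
    · rw [zero_add, pow_zero, Nat.factorial_zero, Nat.cast_one, mul_one, div_one]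
      exact hJ n
    · intro m hm
      rw [zero_pow hm]
      simp
  have hJJ : J = fun p : Pairs => zeta3 * expSum a p.1.1 p.1.2 - expSum b p.1.1 p.1.2 := by
    funext p
    exact hlin _ _
  have key : ∀ J' : Pairs → ℝ, (J' = fun p : Pairs => zeta3 * expSum a p.1.1 p.1.2 - expSum b p.1.1 p.1.2) →
      (∀ (G : Set ℝ), AlgebraicOver ({e} ∪ G) zeta3 → ∀ S : Finset Pairs, ((S.card + 1 : ℕ) : Cardinal) ≤
        Algebra.trdeg ℚ (IntermediateField.adjoin ℚ ({e} ∪ G ∪ J' '' (S : Set Pairs)))) ∧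
      (∀ o o' : Option Pairs, AlgebraicOver {e} (o.elim zeta3 J') → AlgebraicOver {e} (o'.elim zeta3 J') → o = o') ∧
      (AlgebraicOver {e} zeta3 → AlgebraicIndependent ℚ (fun o : Option Pairs => o.elim e J')) ∧
      (∀ (r : ℕ) (w : Fin r → ℝ), AlgebraicOver ({e} ∪ Set.range w) zeta3 →
        {i : Fin r ⊕ Pairs | AlgebraicOver {e} (i.elim w J')}.encard ≤ (r : ℕ∞)) := by
    rintro _ rfl
    exact E8helper71.AZ.t_FGE Pairs e zeta3 (fun p : Pairs => expSum a p.1.1 p.1.2)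
      (fun p : Pairs => expSum b p.1.1 p.1.2) hind
  obtain ⟨h1, h2, h3, h4⟩ := key J hJJ
  refine ⟨⟨a, b, ⟨hab.a0, hab.a1, hab.rec_a⟩, ⟨hab.b0, hab.b1, hab.rec_b⟩, hlin0, hlin, hind⟩, ?_, ?_, h3, h1, h4⟩
  · have := hlin0 0
    rw [this, hab.a0, hab.b0]
    simp
  · exact h2

end Pool.Agent.Results.MP_48b3e2_nt.ExponentialAperyIntegralsEH42
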