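import Pool.Agent.E8helper96.EX.Deg
import Pool.Agent.TH817.Z3.Z
import Pool.Agent.TH250.Z3.Arch

/-!
# Almost all powers `A ^ C` with arithmetic expressions `C` in `ζ(3)` are transcendental

An arithmetic expression is a binary tree whose leaves are labelled by elements of a finite set of
positive real numbers, for instance by `ζ(3)` only, and whose nodes are labelled by `+`, `*`, `/`.
It is not known whether `ζ(3)` is transcendental, so we do not know whether the value `C` of any
non-constant expression in `ζ(3)` is transcendental. The theorem: if one of the leaf labels is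
irrational (for `ζ(3)` this is Apéry's theorem), then for almost all expressions `C` with `n` leaves,
that is for all but `o(1)` of them as `n → ∞`, the number `C` is irrational and `log C`, `A ^ C` are
transcendental, uniformly in the real number `A > 0`, `A ≠ 1`, for instance for `A = 2` and
`A = ζ(3)`. If only the operations `+` and `*` are used, also `A ^ (B ^ C)` is transcendental for
almost all `C`, uniformly in `A` and `B`.

General form, for every `N` and `ε > 0` and all large `n`:

(A) for every field `K ⊆ ℂ` which does not contain all labels and all complex `a, b, c, d` with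
`a d ≠ b c`, the number `(a C + b) / (c C + d)` is in `K` for at most an `ε`-fraction of the expressions
with `n` leaves;

(B) the same for `exp (β + l (a C + b) / (c C + d))` is algebraic, if `β, l` are complex numbers,
`l ≠ 0`, and `a, b, c, d` are algebraic;

(C) the same for `(a C + b) / (c C + d)` is the exponential of an algebraic number, `a, b, c, d` complex;

(D) the same for `κ exp (l C)` is in `𝓛 + V`, if `κ, l` are nonzero complex numbers, `𝓛` is the space
of linear combinations of `1` and of logarithms of algebraic numbers with algebraic coefficients,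
`V` is a space of dimension at most `N` over the algebraic numbers, and only `+` and `*` are used;

(E) (helper37) if `N ≥ 1` and the field generated by the labels has degree larger than `N` (possibly infinite)
over `ℚ`, the same for `(a C + b) / (c C + d)` is in `W`, `W ⊆ ℂ` a rational subspace of dimension at
most `N`, and for `C` is algebraic of degree at most `N`;

(F) (helper37) the same for `C` is algebraic and `ℚ(C)` is not the field generated by the labels.
For the label `ζ(3)`: if `ζ(3)` is transcendental, almost all expressions are transcendental; if not,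
almost all of them generate `ℚ(ζ(3))`.

`n₀` depends only on the labels and on `N`, `ε`.

Parts (E), (F) are the theorem of helper37 (modules `E8helper37/RY`), the others are by helper96.

Proof. If one of the labels is transcendental, (B) and (D) are the theorem
`MP_f55379_nt.RandomExpressionsH37` of our team. Suppose all labels are algebraic (if one label is
`ζ(3)`: the case in which `ζ(3)` is algebraic). The value of an expression is a Möbius transform of
the value of every subexpression, and almost all expressions contain a subexpression from a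
family of expressions with the same number of leaves and the values `x + μ (i + j θ)`,
`0 ≤ i, j ≤ h` (machinery of helper37). If a Möbius transform `M` takes values in a field `K` at three
of the points `x + μ (i + j θ)` with the same `j` and at one of the points `x + μ (i' + j' θ)`, `j' ≠ j`,
the cross ratio shows `θ ∈ K`; this gives (A). If `exp (β + l M)` is algebraic at three points with
values `M₀, M₁, M₂`, the theorem of Gelfond and Schneider shows that `(M₂ - M₀) / (M₁ - M₀)` is rational;
so (B) follows from (A). For (D) one of the ratios `exp (l μ)`, `exp (l μ θ)` of the geometric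
progressions in the family is transcendental, again by Gelfond and Schneider.
-/

set_option autoImplicit false

namespace Pool.Agent.Results.MP_48b3e2_nt.ExpressionsH96

open Module
open Pool.Agent.E8helper37.RX Pool.Agent.E8helper37.RY Pool.Agent.E8helper96.EX

/-- The linear forms in `1` and logarithms of algebraic numbers, with algebraic coefficients. -/
noncomputable def LogForms : Submodule (algebraicClosure ℚ ℂ) ℂ :=
  Submodule.span (algebraicClosure ℚ ℂ) ({1} ∪ {z : ℂ | IsAlgebraic ℚ (Complex.exp z)})

/-- The operations `+`, `*`. -/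
noncomputable def semi : Fin 2 → ℝ → ℝ → ℝ := ![fun x y => x + y, fun x y => x * y]

theorem semi_semi : Semi semi := by
  intro o
  fin_cases o
  · exact Or.inl rfl
  · exact Or.inr rfl

theorem alg_mem {z : ℂ} (hz : IsAlgebraic ℚ (Complex.exp z)) : z ∈ LogForms :=
  Submodule.subset_span (Or.inr hz)

/-- `ζ(3)` -/
noncomputable def zeta3 : ℝ := ∑' n : ℕ, 1 / ((n : ℝ) + 1) ^ 3

theorem zeta3_pos : 0 < zeta3 := by
  have h1 : Summable fun n : ℕ => 1 / ((n : ℝ) + 1) ^ 3 := by
    have h2 := (Real.summable_one_div_nat_pow (p := 3)).2 (by norm_num)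
    have h3 := (summable_nat_add_iff 1).2 h2
    simpa using h3
  exact h1.tsum_pos (fun n => by positivity) 0 (by norm_num)

theorem zeta3_irrational : Irrational zeta3 := by
  rintro ⟨r, hr⟩
  obtain ⟨c, hc, h⟩ := Pool.Agent.TH817.Z3.Z_pre Pool.Agent.TH250.Z3.AM
  have h1 := h r.num r.den r.den_pos
  have h2 : (∑' n : ℕ, 1 / ((n : ℝ) + 1) ^ 3) - (r.num : ℝ) / (r.den : ℝ) = 0 := by
    have h3 : ((r.num : ℝ) / (r.den : ℝ)) = (r : ℝ) := by
      exact_mod_cast (Rat.num_div_den r)
    rw [h3, hr]
    exact sub_self _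
  have h3 : c / (r.den : ℝ) ^ ((468 : ℝ) / 100) ≤ 0 := by
    refine le_trans h1 (le_of_eq ?_)
    rw [abs_eq_zero]
    exact h2
  have h4 : (0 : ℝ) < c / (r.den : ℝ) ^ ((468 : ℝ) / 100) := by
    have : (0 : ℝ) < r.den := by exact_mod_cast r.den_pos
    positivity
  linarith

/-- **Almost all arithmetic expressions in `ζ(3)`.** -/
theorem result :
    -- the general theorem
    (∀ (σ : Type) [Fintype σ] (v : σ → ℝ), (∀ s, 0 < v s) → (∃ s, Irrational (v s)) →
      ∀ (N : ℕ) (ε : ℝ), 0 < ε → ∃ n₀ : ℕ, ∀ n ≥ n₀,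
        -- (A)
        (∀ K : Subfield ℂ, (∃ s, ((v s : ℝ) : ℂ) ∉ K) → ∀ a b c d : ℂ, a * d ≠ b * c →
          (Nat.card {t : Expr σ (Fin 3) // t.leaves = n ∧
            (a * ((t.value arith v : ℝ) : ℂ) + b) / (c * ((t.value arith v : ℝ) : ℂ) + d) ∈ K} : ℝ) ≤
            ε * Nat.card {t : Expr σ (Fin 3) // t.leaves = n}) ∧
        -- (B)
        (∀ a b c d β l : ℂ, IsAlgebraic ℚ a → IsAlgebraic ℚ b → IsAlgebraic ℚ c →
          IsAlgebraic ℚ d → a * d ≠ b * c → l ≠ 0 →
          (Nat.card {t : Expr σ (Fin 3) // t.leaves = n ∧ IsAlgebraic ℚ (Complex.exp (β + l *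
            ((a * ((t.value arith v : ℝ) : ℂ) + b) / (c * ((t.value arith v : ℝ) : ℂ) + d))))} : ℝ) ≤
            ε * Nat.card {t : Expr σ (Fin 3) // t.leaves = n}) ∧
        -- (C)
        (∀ a b c d : ℂ, a * d ≠ b * c →
          (Nat.card {t : Expr σ (Fin 3) // t.leaves = n ∧ ∃ α : ℂ, IsAlgebraic ℚ α ∧
            (a * ((t.value arith v : ℝ) : ℂ) + b) / (c * ((t.value arith v : ℝ) : ℂ) + d) =
              Complex.exp α} : ℝ) ≤
            ε * Nat.card {t : Expr σ (Fin 3) // t.leaves = n}) ∧
        -- (D)
        (∀ κ l : ℂ, κ ≠ 0 → l ≠ 0 →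
          ∀ (V : Submodule (algebraicClosure ℚ ℂ) ℂ)
            [FiniteDimensional (algebraicClosure ℚ ℂ) V],
          Module.finrank (algebraicClosure ℚ ℂ) V ≤ N →
          (Nat.card {t : Expr σ (Fin 2) // t.leaves = n ∧
            κ * Complex.exp (l * ((t.value semi v : ℝ) : ℂ)) ∈ LogForms ⊔ V} : ℝ) ≤
            ε * Nat.card {t : Expr σ (Fin 2) // t.leaves = n}) ∧
        -- (E)
        (1 ≤ N → (∀ L : IntermediateField ℚ ℝ, (∀ s, v s ∈ L) → FiniteDimensional ℚ L →
            N < finrank ℚ L) →
          (∀ a b c d : ℂ, a * d ≠ b * c → ∀ W : Submodule ℚ ℂ, FiniteDimensional ℚ W →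
            finrank ℚ W ≤ N →
            (Nat.card {t : Expr σ (Fin 3) // t.leaves = n ∧
              (a * ((t.value arith v : ℝ) : ℂ) + b) / (c * ((t.value arith v : ℝ) : ℂ) + d) ∈ W} :
              ℝ) ≤ ε * Nat.card {t : Expr σ (Fin 3) // t.leaves = n}) ∧
          (Nat.card {t : Expr σ (Fin 3) // t.leaves = n ∧ DegLe N (t.value arith v)} : ℝ) ≤
            ε * Nat.card {t : Expr σ (Fin 3) // t.leaves = n}) ∧
        -- (F)
        (Nat.card {t : Expr σ (Fin 3) // t.leaves = n ∧ IsAlgebraic ℚ (t.value arith v) ∧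
          IntermediateField.adjoin ℚ {t.value arith v} ≠
            IntermediateField.adjoin ℚ (Set.range v)} : ℝ) ≤
          ε * Nat.card {t : Expr σ (Fin 3) // t.leaves = n}) ∧
    -- real numbers, powers and towers
    (∀ (σ : Type) [Fintype σ] (v : σ → ℝ), (∀ s, 0 < v s) → (∃ s, Irrational (v s)) →
      ∀ ε : ℝ, 0 < ε → ∃ n₀ : ℕ, ∀ n ≥ n₀, ∀ A : ℝ, 0 < A → A ≠ 1 →
        (Nat.card {t : Expr σ (Fin 3) // t.leaves = n ∧ (¬ Irrational (t.value arith v) ∨
          IsAlgebraic ℚ (Real.log (t.value arith v)) ∨ IsAlgebraic ℚ (A ^ t.value arith v))} : ℝ) ≤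
          ε * Nat.card {t : Expr σ (Fin 3) // t.leaves = n} ∧
        ∀ B : ℝ, 0 < B → B ≠ 1 →
          (Nat.card {t : Expr σ (Fin 2) // t.leaves = n ∧ (¬ Irrational (t.value semi v) ∨
            IsAlgebraic ℚ (Real.log (t.value semi v)) ∨ IsAlgebraic ℚ (A ^ t.value semi v) ∨
            IsAlgebraic ℚ (A ^ B ^ t.value semi v))} : ℝ) ≤
            ε * Nat.card {t : Expr σ (Fin 2) // t.leaves = n}) ∧
    -- the number of the problem can be a label
    0 < zeta3 ∧ Irrational zeta3 := by
  refine ⟨?_, ?_, zeta3_pos, zeta3_irrational⟩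
  · intro σ _ v hv hs N ε hε
    obtain ⟨n₁, hn₁⟩ := partF hv arith_ari (p := 0) (q := 1) rfl rfl (by decide) hε
    obtain ⟨n₂, hn₂⟩ := partP hv hs arith_ari (p := 0) (q := 1) rfl rfl (by decide) hε
    obtain ⟨n₃, hn₃⟩ := partL hv hs arith_ari (p := 0) (q := 1) rfl rfl (by decide) hε
    obtain ⟨n₄, hn₄⟩ := partE hv hs semi_semi (p := 0) (q := 1) rfl rfl (by decide) N hε
    obtain ⟨n₅, hn₅⟩ : ∃ n₅ : ℕ, ∀ n ≥ n₅, (1 ≤ N →
        (∀ L : IntermediateField ℚ ℝ, (∀ s, v s ∈ L) → FiniteDimensional ℚ L → N < finrank ℚ L) →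
          (∀ a b c d : ℂ, a * d ≠ b * c → ∀ W : Submodule ℚ ℂ, FiniteDimensional ℚ W →
            finrank ℚ W ≤ N →
            (Nat.card {t : Expr σ (Fin 3) // t.leaves = n ∧
              (a * ((t.value arith v : ℝ) : ℂ) + b) / (c * ((t.value arith v : ℝ) : ℂ) + d) ∈ W} :
              ℝ) ≤ ε * Nat.card {t : Expr σ (Fin 3) // t.leaves = n}) ∧
          (Nat.card {t : Expr σ (Fin 3) // t.leaves = n ∧ DegLe N (t.value arith v)} : ℝ) ≤
            ε * Nat.card {t : Expr σ (Fin 3) // t.leaves = n}) := by
      by_cases h : 1 ≤ N ∧ ∀ L : IntermediateField ℚ ℝ, (∀ s, v s ∈ L) → FiniteDimensional ℚ L →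
          N < finrank ℚ L
      · obtain ⟨n₅, hn₅⟩ := few_of hv h.1 h.2 ε hε
        exact ⟨n₅, fun n hn _ _ => hn₅ n hn⟩
      · exact ⟨0, fun n _ h1 h2 => (h ⟨h1, h2⟩).elim⟩
    obtain ⟨n₆, hn₆⟩ := partG hv hs hε
    refine ⟨n₁ + n₂ + n₃ + n₄ + n₅ + n₆, fun n hn => ⟨?_, ?_, ?_, ?_, ?_, ?_⟩⟩
    · exact hn₁ n (by omega)
    · exact hn₂ n (by omega)
    · exact hn₃ n (by omega)
    · exact hn₄ n (by omega)
    · exact hn₅ n (by omega)
    · exact hn₆ n (by omega)
  · intro σ _ v hv hs ε hε
    have hε2 : 0 < ε / 2 := by positivity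
    obtain ⟨n₁, hn₁⟩ := partR hv hs arith_ari (p := 0) (q := 1) rfl rfl (by decide) hε
    obtain ⟨n₂, hn₂⟩ := partR hv hs semi_semi.ari (p := 0) (q := 1) rfl rfl (by decide) hε2
    obtain ⟨n₃, hn₃⟩ := partE hv hs semi_semi (p := 0) (q := 1) rfl rfl (by decide) 0 hε2
    refine ⟨max n₁ (max n₂ n₃), fun n hn A hA hA1 => ⟨?_, fun B hB hB1 => ?_⟩⟩
    · exact hn₁ n (le_trans (le_max_left _ _) hn) A hA hA1
    · have e1 := hn₂ n (le_trans (le_trans (le_max_left _ _) (le_max_right _ _)) hn) A hA hA1
      have hlA : ((Real.log A : ℝ) : ℂ) ≠ 0 := by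
        have := Real.log_ne_zero_of_pos_of_ne_one hA hA1
        exact_mod_cast this
      have hlB : ((Real.log B : ℝ) : ℂ) ≠ 0 := by
        have := Real.log_ne_zero_of_pos_of_ne_one hB hB1
        exact_mod_cast this
      have e2 := hn₃ n (le_trans (le_trans (le_max_right _ _) (le_max_right _ _)) hn)
        ((Real.log A : ℝ) : ℂ) ((Real.log B : ℝ) : ℂ) hlA hlB ⊥ (by simp)
      have f2 := (card_mono n (P := fun t : Expr σ (Fin 2) =>
        IsAlgebraic ℚ (A ^ B ^ t.value semi v)) fun t ht => by
        rw [sup_bot_eq]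
        apply alg_mem
        rw [← Complex.ofReal_mul, ← Complex.ofReal_exp, ← Real.rpow_def_of_pos hB,
          ← Complex.ofReal_mul, ← Complex.ofReal_exp, ← Real.rpow_def_of_pos hA]
        exact ht.algebraMap (A := ℂ)).trans e2
      have f3 := card_or n (fun t : Expr σ (Fin 2) => ¬ Irrational (t.value semi v) ∨
            IsAlgebraic ℚ (Real.log (t.value semi v)) ∨ IsAlgebraic ℚ (A ^ t.value semi v))
            (fun t => IsAlgebraic ℚ (A ^ B ^ t.value semi v))
      simp only [or_assoc] at f3
      linarith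

end Pool.Agent.Results.MP_48b3e2_nt.ExpressionsH96
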