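import Mathlib
import Pool.Agent.R352.Q.Three
import Pool.Agent.E8helper79.ZM.Final

set_option autoImplicit false

/-!
# A joint measure of transcendence for `ζ(3)` and the tails of its integral

For an integer `k ≥ 2` let `ω = exp (2 π i / k)`. For a positive rational number `x` let `C_k(x)` and
`R_k(x)` be the numbers `(-1)^k / k! * ∫ (∑_j ω^j log t_j)^k exp (-∑_j t_j) dt`, the integral being over
the cube `(0, x)^k` and over the rest `(0, ∞)^k \ (0, x)^k` of the octant. They are real, and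
`ζ(k) = C_k(x) + R_k(x)`.

A polynomial with integer coefficients which are at most `H` in absolute value is said to have height
at most `H`.

(1) Let `K` be a finite set of integers `k ≥ 2`. For each `k ∈ K` let `b_k` be one of the numbers
`ζ(k)`, `R_k(x)` (`x` positive rational), and let `w_1, …, w_m` be different ones (different names) among the
numbers `ζ(k)`, `R_k(x)` (`k ∈ K`), the `b_k` being left out, and the numbers `C_k(x)` (`k ∉ K`). For each
`d` there are `c > 0` and `κ` such that for all nonzero polynomials `P_k` (`k ∈ K`) and `Q` with integer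
coefficients, of degree at most `d` and height at most `H ≥ 1`, one of the numbers `|P_k(b_k, e)|`
(`k ∈ K`), `|Q(e, w_1, …, w_m)|` is at least `c / H ^ κ`.

(2) Let `a, w_1, …, w_m` be different ones among the numbers `ζ(k)`, `R_k(x)` (`x` positive rational), for
one `k ≥ 2`. If `e, w_1, …, w_m` are algebraically dependent, then `a, e` have a measure of algebraic
independence; if `a, e` are algebraically dependent, then `e, w_1, …, w_m` have a measure of algebraic
independence: `|Q| ≥ c / H ^ κ` for the values `Q` of nonzero polynomials of degree at most `d` and height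
at most `H`, with `c > 0` and `κ` which depend on `d` only.

(3) Let `a ≠ a'` be two of the numbers `ζ(k)`, `R_k(x)`. For each `d` there are `c > 0` and `κ` such
that `max (|a - α|, |a' - β|) ≥ c / H ^ κ` for all roots `α` and `β` of nonzero integer polynomials of
degree at most `d` and height at most `H`. For instance `ζ(3)` and `R_3(x)`.
-/

namespace Pool.Agent.Results.MP_48b3e2_nt.JointMeasureH79

open Set MeasureTheory

/-- the zeta value `ζ(s) = ∑ 1 / n^s` -/
noncomputable def zeta (s : ℕ) : ℝ := ∑' n : ℕ, 1 / ((n : ℝ) + 1) ^ s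

/-- `ω = exp (2 π i / k)` -/
noncomputable def root (k : ℕ) : ℂ := Complex.exp (2 * Real.pi * Complex.I / k)

/-- `(∑_j ω^j log t_j)^k exp (-∑_j t_j)` -/
noncomputable def integrand (k : ℕ) (t : Fin k → ℝ) : ℂ :=
  (∑ j : Fin k, root k ^ (j : ℕ) * (Real.log (t j) : ℂ)) ^ k * ((Real.exp (-∑ j, t j) : ℝ) : ℂ)

/-- the open cube `(0, x)^k` -/
def cube (k : ℕ) (x : ℝ) : Set (Fin k → ℝ) := {t | ∀ j, 0 < t j ∧ t j < x}

/-- `(0, ∞)^k \ (0, x)^k` -/
def rest (k : ℕ) (x : ℝ) : Set (Fin k → ℝ) := {t | (∀ j, 0 < t j) ∧ ∃ j, x ≤ t j}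

/-- `C_k(x)`, as a complex number -/
noncomputable def cubeIntegral (k : ℕ) (x : ℚ) : ℂ := (-1) ^ k / k.factorial * ∫ t in cube k x, integrand k t

/-- `R_k(x)`, as a complex number -/
noncomputable def tailIntegral (k : ℕ) (x : ℚ) : ℂ := (-1) ^ k / k.factorial * ∫ t in rest k x, integrand k t

/-- `C_k(x)` -/
noncomputable def C (k : ℕ) (x : ℚ) : ℝ := (cubeIntegral k x).re

/-- `R_k(x)` -/
noncomputable def R (k : ℕ) (x : ℚ) : ℝ := (tailIntegral k x).re

/-- the number with a given name: `ζ(k)` for `none` and `R_k(x)` for `some x` -/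
noncomputable def value (k : ℕ) (a : Option ℚ) : ℝ := a.elim (zeta k) (fun x => R k x)

/-- names: `none`, or `some x` with a positive rational number `x` -/
def IsName (a : Option ℚ) : Prop := ∀ x, a = some x → 0 < x

/-- the height of `P` is at most `H` -/
def HeightLE {ι : Type} (P : MvPolynomial ι ℤ) (H : ℝ) : Prop := ∀ s, |((P.coeff s : ℤ) : ℝ)| ≤ H

/-- the numbers `θ_i` have a measure of algebraic independence -/
def HasMeasure {ι : Type} (θ : ι → ℝ) : Prop :=
  ∀ d : ℕ, ∃ c : ℝ, 0 < c ∧ ∃ κ : ℕ, ∀ P : MvPolynomial ι ℤ, P ≠ 0 → P.totalDegree ≤ d →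
    ∀ H : ℝ, 1 ≤ H → HeightLE P H → c / H ^ κ ≤ |MvPolynomial.aeval θ P|

/-- the numbers `e`, `ζ(k)` or `R_k(x)` (for the members of `S`) and `C_k(x)` (for the members of `T`) -/
noncomputable def family (S : Finset (ℕ × Option ℚ)) (T : Finset (ℕ × ℚ)) : Option (S ⊕ T) → ℝ :=
  fun o => o.elim (Real.exp 1) (Sum.elim (fun p => value p.1.1 p.1.2) (fun q => C q.1.1 q.1.2))

/-- the numbers `e` and `ζ(k)` or `R_k(x)` -/
noncomputable def familyOne (k : ℕ) (X : Finset (Option ℚ)) : Option X → ℝ :=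
  fun o => o.elim (Real.exp 1) (fun s => value k s)

theorem cube_eq (k : ℕ) (x : ℝ) : cube k x = Pool.Agent.R352.Q.cube k (Ioo 0 x) := by
  ext t
  simp [cube, Pool.Agent.R352.Q.cube]

theorem rest_eq (k : ℕ) (x : ℝ) :
    rest k x = Pool.Agent.R352.Q.cube k (Ioi 0) \ Pool.Agent.R352.Q.cube k (Ioo 0 x) := by
  ext t
  simp only [rest, Pool.Agent.R352.Q.cube, mem_sdiff, mem_univ_pi, mem_Ioi, mem_Ioo]
  constructor
  · rintro ⟨h1, j, h2⟩
    exact ⟨h1, fun h => absurd (h j).2 (not_lt.2 h2)⟩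
  · rintro ⟨h1, h2⟩
    push Not at h2
    obtain ⟨j, hj⟩ := h2
    exact ⟨h1, j, hj (h1 j)⟩

theorem cubeIntegral_eq {k : ℕ} (hk : 2 ≤ k) {x : ℚ} (hx : 0 < x) :
    cubeIntegral k x = (Pool.Agent.R352.Q.Zk k x : ℂ) := by
  have hx' : (0 : ℝ) < x := by exact_mod_cast hx
  rw [← Pool.Agent.R352.Q.NI_box hk hx', cubeIntegral, cube_eq]
  rfl

theorem tailIntegral_eq {k : ℕ} (hk : 2 ≤ k) {x : ℚ} (hx : 0 < x) :
    tailIntegral k x = (Pool.Agent.R352.Q.Rk k x : ℂ) := by
  have hx' : (0 : ℝ) < x := by exact_mod_cast hx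
  have h : tailIntegral k x = Pool.Agent.R352.Q.NI k
      (Pool.Agent.R352.Q.cube k (Ioi 0) \ Pool.Agent.R352.Q.cube k (Ioo 0 x)) := by
    rw [tailIntegral, rest_eq]
    rfl
  rw [h, Pool.Agent.R352.Q.NI_diff, Pool.Agent.R352.Q.NI_full hk, Pool.Agent.R352.Q.NI_box hk hx',
    Pool.Agent.R352.Q.Rk]
  push_cast
  rfl

theorem C_eq {k : ℕ} (hk : 2 ≤ k) {x : ℚ} (hx : 0 < x) : C k x = Pool.Agent.R352.Q.Zk k x := by
  rw [C, cubeIntegral_eq hk hx, Complex.ofReal_re]

theorem R_eq {k : ℕ} (hk : 2 ≤ k) {x : ℚ} (hx : 0 < x) : R k x = Pool.Agent.R352.Q.Rk k x := by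
  rw [R, tailIntegral_eq hk hx, Complex.ofReal_re]

theorem value_eq {k : ℕ} (hk : 2 ≤ k) {a : Option ℚ} (ha : IsName a) :
    value k a = Pool.Agent.E8helper79.ZM.wv k a := by
  cases a with
  | none => rfl
  | some x => exact R_eq hk (ha x rfl)

theorem familyOne_eq {k : ℕ} (hk : 2 ≤ k) {X : Finset (Option ℚ)} (hX : ∀ s ∈ X, IsName s) :
    familyOne k X = fun o : Option X => o.elim (Real.exp 1) (fun s => Pool.Agent.E8helper79.ZM.wv k s) := by
  funext o
  cases o with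
  | none => rfl
  | some s => exact value_eq hk (hX s.1 s.2)

theorem jm {k : ℕ} (hk : 2 ≤ k) (a : Option ℚ) (X : Finset (Option ℚ)) (ha : IsName a) (hX : ∀ s ∈ X, IsName s)
    (haX : a ∉ X) : Pool.Agent.E8helper79.ZM.JM ![value k a, Real.exp 1] (familyOne k X) := by
  rw [value_eq hk ha, familyOne_eq hk hX]
  exact Pool.Agent.E8helper79.ZM.joint_one hk a X ha hX haX

theorem result :
    -- (1)
    (∀ (K : Finset ℕ) (b : ℕ → Option ℚ) (S : Finset (ℕ × Option ℚ)) (T : Finset (ℕ × ℚ)),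
      (∀ k ∈ K, 2 ≤ k ∧ IsName (b k)) → (∀ p ∈ S, p.1 ∈ K ∧ p.2 ≠ b p.1 ∧ IsName p.2) →
      (∀ q ∈ T, 2 ≤ q.1 ∧ q.1 ∉ K ∧ 0 < q.2) →
      ∀ d : ℕ, ∃ c : ℝ, 0 < c ∧ ∃ κ : ℕ,
        ∀ (P : ℕ → MvPolynomial (Fin 2) ℤ) (Q : MvPolynomial (Option (S ⊕ T)) ℤ),
          (∀ k ∈ K, P k ≠ 0 ∧ (P k).totalDegree ≤ d) → Q ≠ 0 → Q.totalDegree ≤ d →
          ∀ H : ℝ, 1 ≤ H → (∀ k ∈ K, HeightLE (P k) H) → HeightLE Q H →
            (∃ k ∈ K, c / H ^ κ ≤ |MvPolynomial.aeval ![value k (b k), Real.exp 1] (P k)|) ∨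
              c / H ^ κ ≤ |MvPolynomial.aeval (family S T) Q|) ∧
    -- (2)
    (∀ k : ℕ, 2 ≤ k → ∀ (a : Option ℚ) (X : Finset (Option ℚ)), IsName a → (∀ s ∈ X, IsName s) → a ∉ X →
      (¬ AlgebraicIndependent ℚ (familyOne k X) → HasMeasure ![value k a, Real.exp 1]) ∧
      (¬ AlgebraicIndependent ℚ ![value k a, Real.exp 1] → HasMeasure (familyOne k X))) ∧
    -- (3)
    (∀ k : ℕ, 2 ≤ k → ∀ a a' : Option ℚ, IsName a → IsName a' → a ≠ a' →
      ∀ d : ℕ, ∃ c : ℝ, 0 < c ∧ ∃ κ : ℕ, ∀ p r : Polynomial ℤ, p ≠ 0 → r ≠ 0 →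
        p.natDegree ≤ d → r.natDegree ≤ d →
        ∀ H : ℝ, 1 ≤ H → (∀ n, |((p.coeff n : ℤ) : ℝ)| ≤ H) → (∀ n, |((r.coeff n : ℤ) : ℝ)| ≤ H) →
        ∀ α β : ℂ, Polynomial.aeval α p = 0 → Polynomial.aeval β r = 0 →
          c / H ^ κ ≤ max ‖(value k a : ℂ) - α‖ ‖(value k a' : ℂ) - β‖) := by
  refine ⟨fun K b S T hK hS hT d => ?_, fun k hk a X ha hX haX => ⟨fun h => ?_, fun h => ?_⟩,
    fun k hk a a' ha ha' hne d => ?_⟩
  · obtain ⟨c, hc, κ, h1⟩ := Pool.Agent.E8helper79.ZM.joint_final K b S T hK hS hT d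
    refine ⟨c, hc, κ, fun P Q hP hQ hQd H hH hPH hQH => ?_⟩
    have h2 := h1 P Q (fun k hk => (hP k hk).1) hQ (fun k hk => (hP k hk).2) hQd H hH hPH hQH
    rcases h2 with ⟨k, hk, h3⟩ | h3
    · left
      refine ⟨k, hk, ?_⟩
      rw [value_eq (hK k hk).1 (hK k hk).2]
      exact h3
    · right
      have h4 : family S T = fun o : Option (S ⊕ T) => o.elim (Real.exp 1)
          (Sum.elim (fun p => Pool.Agent.E8helper79.ZM.wv p.1.1 p.1.2)
            (fun q => Pool.Agent.R352.Q.Zk q.1.1 q.1.2)) := by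
        funext o
        rcases o with _ | p | q
        · rfl
        · exact value_eq (hK _ (hS p.1 p.2).1).1 (hS p.1 p.2).2.2
        · exact C_eq (hT q.1 q.2).1 (hT q.1 q.2).2.2
      rw [h4]
      exact h3
  · exact ((jm hk a X ha hX haX).dich).resolve_right h
  · exact ((jm hk a X ha hX haX).symm.dich).resolve_right h
  · have h1 := (jm hk a {a'} ha (fun s hs => by rw [Finset.mem_singleton.1 hs]; exact ha')
      (fun h => hne (Finset.mem_singleton.1 h))).approx 0 (some ⟨a', Finset.mem_singleton_self _⟩) d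
    exact h1

end Pool.Agent.Results.MP_48b3e2_nt.JointMeasureH79
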