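import Mathlib
import Pool.Agent.E8helper95.Z3M
import Pool.Agent.E8helper95.ZP2

/-!
# The expansions of `ζ(3)` are not composed of few pieces of linear recurrences

A real number is rational if and only if its expansion in a base `b` satisfies, from some point on, a linear
recurrence. Here expansions of `ζ(3) = ∑ 1/(n+1)^3` are considered which are cut into `z` pieces, each of which
continues a linear recurrence, a different one in each piece: the piece has an order `m`, rational coefficients
and `m` seeds, of which the last `t` are the letters which precede the piece and the others are arbitrary bounded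
integers; the last letter of the piece is arbitrary. This contains

* the parsings of Lempel and Ziv into phrases, each of which copies a block that begins further to the left
  (`m = t`, recurrence `s_(i+m) = s_i`),
* words which satisfy a linear recurrence of order `m` after a change of `k` letters (`z = k + 1`, `t = 0`),
* words whose letters are predicted by a finite automaton with `Q` states, with `k` errors (after an error at
  most `Q` arbitrary letters and a copying piece with `m = t ≤ Q`).

**Theorem.** For every base `b` and all representations `∑ a_i b^(-i-1)` of `ζ(3)` modulo one by integers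
`|a_i| ≤ b^h`, the length `L` of a prefix that is cut into `z` pieces with parameters `m_i, t_i` is at most
`∑ 4.68^(z-i) (m_i - t_i + C √((m_i+1) log (m_i+2)))`, and at most `C (4.68^z + ∑ 4.68^(z-i) (m_i - t_i))`. The
constant `C` depends on `h` only. For instance (one piece, `t = 0`) the linear complexity of the first `L` letters
is at least `L / 4.68 - O(√(L log L))`, and (`m = t`) at least `(log L) / log 4.68 - O(1)` pieces are needed when all
pieces continue recurrences of the preceding letters.

Proof: a piece from `u` to `v` gives a rational approximation of `ζ(3)` with denominator `b^(u-t) q`, where `q`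
belongs to the recurrence and is at most `b^(m + O(√(m log m)))` (starting theorem `Pool.Agent.Y928.PL.core2`), and
error about `b^(-v)`; compare with the irrationality exponent `4.68` (starting file `ZetaThreeExponentC`). The
resulting recursion for the ends of the pieces is solved with a corrector of order `3/4`.
-/

set_option autoImplicit false

namespace Pool.Agent.Results.MP_48b3e2_nt.PiecewiseRecurrentH95

open Finset

/-- `ζ(3) = ∑ 1/(n+1)^3` -/
noncomputable def zeta3 : ℝ := ∑' n : ℕ, 1 / ((n : ℝ) + 1) ^ 3

/-- The letters `a_0, a_1, …` are integers of absolute value at most `B`, and `∑ a_i b^(-i-1)` is `x` up to an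
integer. -/
def Represents (b B : ℕ) (a : ℕ → ℤ) (x : ℝ) : Prop :=
  (∀ i, |a i| ≤ (B : ℤ)) ∧ ∃ n : ℤ, HasSum (fun i : ℕ => (a i : ℝ) / (b : ℝ) ^ (i + 1)) (x - n)

/-- The letters `a_u, …, a_(v-2)` (all letters of the piece from `u` to `v` but the last) continue a linear
recurrence of order `m` with rational coefficients, `t` of whose seeds are correct: there are integers `s_i` of
absolute value at most `B` with `s_(m-t+i) = a_(u-t+i)` for `i < t` (the last `t` seeds are the letters before the
piece) and `a_(u+i) = s_(m+i) = c_0 s_i + ⋯ + c_(m-1) s_(i+m-1)` for `u + i < v - 1`. -/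
def Piece (B : ℕ) (a : ℕ → ℤ) (u v m t : ℕ) : Prop :=
  u ≤ v ∧ t ≤ m ∧ t ≤ u ∧ ∃ (s : ℕ → ℤ) (c : ℕ → ℚ), (∀ i, |s i| ≤ (B : ℤ)) ∧
    (∀ i < t, s (m - t + i) = a (u - t + i)) ∧
    ∀ i, u + i + 1 < v → a (u + i) = s (m + i) ∧
      (s (m + i) : ℚ) = ∑ l ∈ range m, c l * (s (i + l) : ℚ)

/-- **The expansions of `ζ(3)` are not composed of few pieces of linear recurrences.** For every `h` there is
`C` such that for all bases `b ≥ 2` and all representations `a` of `ζ(3)` modulo one by integers `|a_i| ≤ b^h`:
if the prefix of length `L = e z` of `a` is cut at `0 = e 0 ≤ e 1 ≤ ⋯ ≤ e z` into `z` pieces, the `i`-th of which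
(all its letters but the last) continues a linear recurrence of order `m i` with `t i` correct seeds, then
`L ≤ ∑ 4.68^(z-i) (m i - t i + C √((m i + 1) log (m i + 2)))` and
`L ≤ C (4.68^z + ∑ 4.68^(z-i) (m i - t i))`, the sums over `i = 0, …, z - 1`. -/
theorem result : ∀ h : ℕ, ∃ C : ℝ, 0 < C ∧ ∀ b : ℕ, 2 ≤ b → ∀ a : ℕ → ℤ,
    Represents b (b ^ h) a zeta3 →
    ∀ (z : ℕ) (e m t : ℕ → ℕ), e 0 = 0 →
      (∀ i < z, Piece (b ^ h) a (e i) (e (i + 1)) (m i) (t i)) →
      (e z : ℝ) ≤ ∑ i ∈ range z, (4.68 : ℝ) ^ (z - i) *
        ((m i : ℝ) - t i + C * Real.sqrt (((m i : ℝ) + 1) * Real.log ((m i : ℝ) + 2))) ∧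
      (e z : ℝ) ≤ C * ((4.68 : ℝ) ^ z + ∑ i ∈ range z, (4.68 : ℝ) ^ (z - i) * ((m i : ℝ) - t i)) := by
  intro h
  obtain ⟨c0, hc0, hmeas⟩ := Pool.Agent.E8helper95.z3_meas
  obtain ⟨C, hC, hmain⟩ := Pool.Agent.E8helper95.ZP.main zeta3 (117 / 25) c0 (by norm_num) hc0
    (fun q hq p => by
      obtain ⟨j, hj, h1⟩ := hmeas q hq (fun _ => p)
      rw [Finset.mem_singleton] at hj
      subst hj
      exact h1) h
  have e1 : ((117 : ℝ) / 25) = 4.68 := by norm_num
  rw [e1] at hmain
  refine ⟨C, hC, fun b hb a ha z e m t h0 hp => ?_⟩
  exact hmain b hb a (fun i => by exact_mod_cast ha.1 i) ha.2 z e m t h0 (fun i hi => hp i hi)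

end Pool.Agent.Results.MP_48b3e2_nt.PiecewiseRecurrentH95
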